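import Pool.Agent.Lib.MP_fd6009_an.AS.Main

/-!
# MP_fd6009_an: the sum theorem for operators of type (FPV) fails in every Banach space whose dual contains `ℓ¹`
-/

set_option autoImplicit false

namespace Pool.Agent.Results.MP_fd6009_an.DualContainsEllOne

universe u

/-- `X` contains an isomorphic copy of `ℓ¹`: a bounded sequence with a lower `ℓ¹` estimate. -/
def ContainsEllOne (X : Type u) [NormedAddCommGroup X] [NormedSpace ℝ X] : Prop :=
  ∃ (x : ℕ → X) (c : ℝ), 0 < c ∧ (∀ n, ‖x n‖ ≤ 1) ∧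
    ∀ (s : Finset ℕ) (t : ℕ → ℝ), c * ∑ i ∈ s, |t i| ≤ ‖∑ i ∈ s, t i • x i‖

/-- `X` contains an isomorphic copy of `c₀`: a sequence equivalent to the unit vectors of `c₀`. -/
def ContainsC0 (X : Type u) [NormedAddCommGroup X] [NormedSpace ℝ X] : Prop :=
  ∃ (x : ℕ → X) (c C : ℝ), 0 < c ∧
    (∀ (s : Finset ℕ) (t : ℕ → ℝ), ∀ j ∈ s, c * |t j| ≤ ‖∑ i ∈ s, t i • x i‖) ∧
    ∀ (s : Finset ℕ) (t : ℕ → ℝ) (b : ℝ), (∀ i ∈ s, |t i| ≤ b) → 0 ≤ b →
      ‖∑ i ∈ s, t i • x i‖ ≤ C * b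

section Defs

variable {X : Type u} [NormedAddCommGroup X] [NormedSpace ℝ X]

/-- The domain of a set-valued operator. -/
def dom (A : X → Set (X →L[ℝ] ℝ)) : Set X := {x | (A x).Nonempty}

/-- Monotone operators. -/
def IsMonotone (A : X → Set (X →L[ℝ] ℝ)) : Prop :=
  ∀ (x y : X) (a b : X →L[ℝ] ℝ), a ∈ A x → b ∈ A y → 0 ≤ (a - b) (x - y)

/-- Maximally monotone operators: monotone, without proper monotone extension. -/
def IsMaximal (A : X → Set (X →L[ℝ] ℝ)) : Prop :=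
  IsMonotone A ∧ ∀ A' : X → Set (X →L[ℝ] ℝ), IsMonotone A' → (∀ x, A x ⊆ A' x) →
    ∀ x, A' x ⊆ A x

/-- Operators of type (FPV). -/
def TypeFPV (A : X → Set (X →L[ℝ] ℝ)) : Prop :=
  IsMaximal A ∧ ∀ U : Set X, IsOpen U → Convex ℝ U → (U ∩ dom A).Nonempty →
    ∀ x ∈ U, ∀ a : X →L[ℝ] ℝ, (∀ y ∈ U, ∀ b ∈ A y, 0 ≤ (a - b) (x - y)) → a ∈ A x

/-- The normal cone operator of a set `C`, that is the subdifferential of its indicator
function. -/
def normalCone (C : Set X) (x : X) : Set (X →L[ℝ] ℝ) :=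
  {a | x ∈ C ∧ ∀ y ∈ C, a (y - x) ≤ 0}

/-- The pointwise sum of two operators. -/
def sum (A B : X → Set (X →L[ℝ] ℝ)) (x : X) : Set (X →L[ℝ] ℝ) :=
  {c | ∃ a ∈ A x, ∃ b ∈ B x, a + b = c}

/-- The closed half space of a functional. -/
def halfSpace (h : X →L[ℝ] ℝ) : Set X := {x | h x ≤ 0}

end Defs

/-- **The sum theorem fails in every Banach space `X` whose dual contains `ℓ¹`**, in particular if `X`
contains `c₀` or `ℓ¹`: there are an operator `A` of type (FPV) and a closed half space `H` whose interior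
meets the domain of `A` such that the normal cone operator of `H` is maximally monotone, with domain
`H`, and the sum of the two is not maximally monotone. -/
theorem result :
    ∀ (X : Type u) [NormedAddCommGroup X] [NormedSpace ℝ X] [CompleteSpace X],
      ContainsEllOne (X →L[ℝ] ℝ) ∨ ContainsC0 X ∨ ContainsEllOne X →
      ∃ (A : X → Set (X →L[ℝ] ℝ)) (h : X →L[ℝ] ℝ), h ≠ 0 ∧ TypeFPV A ∧
        IsMaximal (normalCone (halfSpace h)) ∧ dom (normalCone (halfSpace h)) = halfSpace h ∧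
        (dom A ∩ interior (halfSpace h)).Nonempty ∧
        ¬ IsMaximal (sum A (normalCone (halfSpace h))) := by
  intro X _ _ _ hX
  have hD : Pool.Agent.Lib.MPfd6009.AS.DualHasEllOne X := by
    rcases hX with h | h | h
    · exact h
    · exact Pool.Agent.Lib.MPfd6009.AS.mainC0.{u} X h
    · exact Pool.Agent.Lib.MPfd6009.AS.mainL1.{u} X h
  obtain ⟨A, h, h1, h2, h3, h4, h5, -, h6⟩ := Pool.Agent.Lib.MPfd6009.AS.main.{u} X hD
  exact ⟨A, h, h1, ⟨h2.1, fun U hU _ hne => h2.2 U hU hne⟩, h3, h4, h5, h6⟩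

end Pool.Agent.Results.MP_fd6009_an.DualContainsEllOne
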