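import Pool.Agent.Lib.MP_fd6009_an.Local
import Pool.Agent.Lib.MP_fd6009_an.NormalCone

/-!
# The sum problem for operators of type (FPV): a counterexample in c_0

The space is `C_0(N x N) x R` with the maximum norm, which is isometric to `c_0`.
-/

set_option autoImplicit false
open scoped Pointwise

namespace Pool.Agent.Results.MP_fd6009_an.HalfSpaceSum

section Defs

variable {X : Type} [NormedAddCommGroup X] [NormedSpace ℝ X]

/-- The domain of a set-valued operator. -/
def dom (A : X → Set (X →L[ℝ] ℝ)) : Set X := {x | (A x).Nonempty}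

/-- Monotone operators. -/
def IsMonotone (A : X → Set (X →L[ℝ] ℝ)) : Prop :=
  ∀ (x y : X) (a b : X →L[ℝ] ℝ), a ∈ A x → b ∈ A y → 0 ≤ (a - b) (x - y)

/-- Maximally monotone operators: monotone, without proper monotone extension. -/
def IsMaximal (A : X → Set (X →L[ℝ] ℝ)) : Prop :=
  IsMonotone A ∧ ∀ A' : X → Set (X →L[ℝ] ℝ), IsMonotone A' → (∀ x, A x ⊆ A' x) →
    ∀ x, A' x ⊆ A x

/-- Operators of type (FPV). -/
def TypeFPV (A : X → Set (X →L[ℝ] ℝ)) : Prop :=
  IsMaximal A ∧ ∀ U : Set X, IsOpen U → Convex ℝ U → (U ∩ dom A).Nonempty →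
    ∀ x ∈ U, ∀ a : X →L[ℝ] ℝ, (∀ y ∈ U, ∀ b ∈ A y, 0 ≤ (a - b) (x - y)) → a ∈ A x

/-- A stronger form of type (FPV): all open sets are admitted, convex or not, whether they meet
the domain or not. -/
def LocallyMaximal (A : X → Set (X →L[ℝ] ℝ)) : Prop :=
  IsMaximal A ∧ ∀ U : Set X, IsOpen U →
    ∀ x ∈ U, ∀ a : X →L[ℝ] ℝ, (∀ y ∈ U, ∀ b ∈ A y, 0 ≤ (a - b) (x - y)) → a ∈ A x

/-- The normal cone operator of a set `C`, that is the subdifferential of its indicator
function. -/
def normalCone (C : Set X) (x : X) : Set (X →L[ℝ] ℝ) :=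
  {a | x ∈ C ∧ ∀ y ∈ C, a (y - x) ≤ 0}

/-- The pointwise sum of two operators. -/
def sum (A B : X → Set (X →L[ℝ] ℝ)) (x : X) : Set (X →L[ℝ] ℝ) :=
  {c | ∃ a ∈ A x, ∃ b ∈ B x, a + b = c}

lemma isMaximal_of {A : X → Set (X →L[ℝ] ℝ)} (h1 : IsMonotone A)
    (h2 : ∀ (x : X) (a : X →L[ℝ] ℝ),
      (∀ (y : X) (b : X →L[ℝ] ℝ), b ∈ A y → 0 ≤ (a - b) (x - y)) → a ∈ A x) : IsMaximal A :=
  ⟨h1, fun _ hA' hsub x a ha => h2 x a fun y b hb => hA' x y a b ha (hsub y hb)⟩

end Defs

open Pool.Agent.SumCE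

/-- The space `C_0(N x N) x R` with the maximum norm, isometric to `c_0`. -/
abbrev Space : Type := ZeroAtInftyContinuousMap (ℕ × ℕ) ℝ × ℝ

/-- The closed half space of the points with second coordinate at most `0`. -/
def half : Set Space := {x | x.2 ≤ 0}

lemma normalCone_half (x : Space) : normalCone half x = NC x := by
  ext a
  constructor
  · rintro ⟨hx, ha⟩
    have hx' : x.2 ≤ 0 := hx
    have h0 : ∀ (v : E0) (s : ℝ), s ≤ -x.2 → a (v, s) ≤ 0 := by
      intro v s hs
      have := ha (x + (v, s)) (by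
        change x.2 + s ≤ 0
        linarith)
      simpa using this
    have hfs : fs a = 0 := by
      ext v
      have h1 := h0 v 0 (by linarith)
      have h2 := h0 (-v) 0 (by linarith)
      have h3 : a (-v, (0 : ℝ)) = - a (v, 0) := by
        rw [← map_neg]; simp
      rw [h3] at h2
      have : a (v, (0 : ℝ)) = 0 := by linarith
      simpa [fs_apply] using this
    have h4 : ∀ s : ℝ, a ((0 : E0), s) = s * a (0, 1) := by
      intro s
      have : ((0 : E0), s) = s • ((0 : E0), (1 : ℝ)) := by simp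
      rw [this, map_smul, smul_eq_mul]
    have h5 : 0 ≤ a (0, 1) := by
      have := h0 0 (-1 - x.2 + x.2) (by linarith)
      rw [h4] at this
      linarith
    have h6 : a (0, 1) * x.2 = 0 := by
      have h7 := h0 0 (-x.2) le_rfl
      rw [h4] at h7
      have h8 : a (0, 1) * x.2 ≤ 0 := mul_nonpos_of_nonneg_of_nonpos h5 hx'
      linarith
    exact ⟨hx', hfs, h5, h6⟩
  · rintro ⟨hx, hfs, h5, h6⟩
    refine ⟨hx, fun y hy => ?_⟩
    have hy' : y.2 ≤ 0 := hy
    rw [dual_eq a (y - x), hfs]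
    have h7 : a (0, 1) * y.2 ≤ 0 := mul_nonpos_of_nonneg_of_nonpos h5 hy'
    have : (y - x).2 = y.2 - x.2 := rfl
    simp only [this, zero_apply]
    nlinarith

/-- **Negative answer to the sum problem for operators of type (FPV).** On the space
`C_0(N x N) x R` (isometric to `c_0`) there is an operator `A`, of type (FPV) and even locally
maximal on every open set, whose domain meets the interior of a closed half space `H`, such that
`A` and the normal cone operator of `H` are maximally monotone but their sum is not. -/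
theorem result :
    ∃ A : Space → Set (Space →L[ℝ] ℝ),
      TypeFPV A ∧ LocallyMaximal A ∧
      IsClosed half ∧ Convex ℝ half ∧
      IsMaximal (normalCone half) ∧ dom (normalCone half) = half ∧
      (dom A ∩ interior half).Nonempty ∧
      IsMonotone (sum A (normalCone half)) ∧ ¬ IsMaximal (sum A (normalCone half)) := by
  have hmax : IsMaximal (X := Space) (Op (cu 0)) :=
    isMaximal_of (Op_cu_monotone 0) (Op_cu_maximal le_rfl)
  have hNC : (normalCone half : Space → Set (Space →L[ℝ] ℝ)) = NC :=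
    funext normalCone_half
  have hNCm : IsMonotone (X := Space) NC := NC_monotone
  have hNCx : IsMaximal (X := Space) NC := isMaximal_of NC_monotone NC_maximal
  have hmon : IsMonotone (X := Space) (sum (Op (cu 0)) NC) := by
    rintro x y a b ⟨a1, ha1, a2, ha2, rfl⟩ ⟨b1, hb1, b2, hb2, rfl⟩
    have h1 := Op_cu_monotone 0 x y a1 b1 ha1 hb1
    have h2 := NC_monotone x y a2 b2 ha2 hb2
    have h3 : (a1 + a2 - (b1 + b2)) (x - y) = (a1 - b1) (x - y) + (a2 - b2) (x - y) := by
      simp only [sub_apply, add_apply]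
      ring
    rw [h3]
    linarith
  refine ⟨Op (cu 0), ⟨hmax, fun U hU _ _ x hx a h => Op_local hU hx a h⟩,
    ⟨hmax, fun U hU x hx a h => Op_local hU hx a h⟩,
    isClosed_le continuous_snd continuous_const, ?_, ?_, ?_, ?_, ?_, ?_⟩
  · intro x hx y hy s t hs ht hst
    have hx' : x.2 ≤ 0 := hx
    have hy' : y.2 ≤ 0 := hy
    change s * x.2 + t * y.2 ≤ 0
    nlinarith
  · rw [hNC]; exact hNCx
  · rw [hNC]
    ext x
    refine ⟨?_, fun hx => NC_nonempty hx⟩
    rintro ⟨a, ha⟩
    exact ha.1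
  · obtain ⟨y₁, hy₁⟩ := Op_cu_nonempty (g := 0) (τ := -1) le_rfl (by norm_num)
    refine ⟨(y₁, -1), hy₁, ?_⟩
    rw [mem_interior]
    refine ⟨{y : Space | y.2 < 0}, fun y (hy : y.2 < 0) => (show y.2 ≤ 0 from le_of_lt hy),
      ?_, ?_⟩
    · exact isOpen_lt continuous_snd continuous_const
    · change (-1 : ℝ) < 0
      norm_num
  · rw [hNC]; exact hmon
  · rw [hNC]
    rintro ⟨_, h⟩
    obtain ⟨y₂, a₂, ha₂⟩ := Op_cu_nonempty (g := 0) (τ := 1) le_rfl (by norm_num)
    have hrel : ∀ (y : Space) (b : Space →L[ℝ] ℝ), b ∈ sum (Op (cu 0)) NC y →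
        0 ≤ (a₂ - b) ((y₂, (1 : ℝ)) - y) := by
      rintro y _ ⟨b, hb, c, hc, rfl⟩
      have hy : y.2 < 0 := by
        rcases lt_or_eq_of_le hc.1 with h3 | h3
        · exact h3
        · exfalso
          have h4 := Op_cu_empty (g := 0) (x := y) (by simp [h3])
          rw [h4] at hb
          exact hb
      have hc0 := NC_of_neg hy hc
      subst hc0
      have h5 := Op_cu_monotone 0 (y₂, 1) y a₂ b ha₂ hb
      simpa using h5
    -- the extension of the sum by one pair
    let A' : Space → Set (Space →L[ℝ] ℝ) := fun x =>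
      {a | a ∈ sum (Op (cu 0)) NC x ∨ (x = (y₂, 1) ∧ a = a₂)}
    have hA' : IsMonotone A' := by
      rintro x y a b (ha | ⟨rfl, rfl⟩) (hb | ⟨rfl, rfl⟩)
      · exact hmon x y a b ha hb
      · have h1 := hrel x a ha
        have h2 : (a - b) (x - (y₂, 1)) = (b - a) ((y₂, 1) - x) := by
          simp only [sub_apply, map_sub]
          ring
        rw [h2]; exact h1
      · exact hrel y b hb
      · simp
    have h6 := h A' hA' (fun x a ha => Or.inl ha) (y₂, 1) (Or.inr ⟨rfl, rfl⟩)
    obtain ⟨b, _, c, hc, _⟩ := h6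
    have := hc.1
    norm_num at this

end Pool.Agent.Results.MP_fd6009_an.HalfSpaceSum
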